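import Pool.Agent.TH433.MF.Sharp
import Pool.Agent.TH649.LOC.Top
import Pool.Agent.W570.NQ.L3

set_option autoImplicit false

noncomputable section

open MeasureTheory
open scoped ENNReal Pointwise

namespace Pool.Agent.Results.MP_5f4cdd_gt.ClassicalMahler

/-- The classical Mahler volume `M_∞(K) = vol(K) ∫ exp(-h_K(y)) dy` (the case `p = ∞`), where
`h_K(y) = sup_{x ∈ K} ⟨x, y⟩`. -/
def mahlerInf {n : ℕ} (K : Set (Fin n → ℝ)) : ℝ≥0∞ :=
  volume K * ∫⁻ y : Fin n → ℝ, ENNReal.ofReal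
    (Real.exp (-(sSup ((fun x : Fin n → ℝ => ∑ i, x i * y i) '' K))))

/-- the standard simplex `Δ_n` -/
def simplex (n : ℕ) : Set (Fin n → ℝ) := {z | (∀ i, 0 ≤ z i) ∧ ∑ i, z i ≤ 1}

/-- the infimum of `M_∞(Δ_n - x)` over `x ∈ Δ_n` -/
def simplexInfTop (n : ℕ) : ℝ≥0∞ :=
  ⨅ x ∈ simplex n, mahlerInf ((fun z : Fin n → ℝ => z - x) '' simplex n)

/-- convex bodies in `ℝⁿ` (in any position) -/
def Body {n : ℕ} (K : Set (Fin n → ℝ)) : Prop := Convex ℝ K ∧ IsCompact K ∧ (interior K).Nonempty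

/-- the polar body `(K - z)° = {y : ⟨x - z, y⟩ ≤ 1 for all x ∈ K}` -/
def polarAt {n : ℕ} (K : Set (Fin n → ℝ)) (z : Fin n → ℝ) : Set (Fin n → ℝ) :=
  {y | ∀ x ∈ K, ∑ i, (x i - z i) * y i ≤ 1}

lemma bd {n : ℕ} {K : Set (Fin n → ℝ)} (hK : Body K) : Pool.Agent.TH808.BD K :=
  ⟨hK.2.1, hK.1, hK.2.2⟩

lemma mz_zero {n : ℕ} {K : Set (Fin n → ℝ)} (hK : Body K) :
    Pool.Agent.TH808.MZ K 0 = mahlerInf K := by
  rw [Pool.Agent.TH808.MZ_mah hK.2.1 (hK.2.2.mono interior_subset)]
  have e : Pool.Agent.W570.AV.tr 0 K = K := by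
    unfold Pool.Agent.W570.AV.tr
    simp
  rw [e]
  rfl

theorem low {n : ℕ} {K : Set (Fin n → ℝ)} (hK : Body K) :
    ENNReal.ofReal (((n:ℝ) + 1) ^ (n + 1) / n.factorial) ≤ mahlerInf K := by
  rw [← mz_zero hK]
  exact Pool.Agent.TH433.MF.mahler n K (bd hK) 0

lemma body_simplex {n : ℕ} (x : Fin n → ℝ) : Body ((fun z : Fin n → ℝ => z - x) '' simplex n) := by
  refine ⟨?_, ?_, ?_⟩
  · have h := (Pool.Agent.W570.AV.sx_conv (n := n) 1).translate (-x)
    have h2 : (fun z => -x + z) '' (Pool.Agent.W570.AV.sx n 1) = (fun z => z - x) '' simplex n := by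
      refine Set.image_congr fun z _ => ?_
      abel
    rwa [h2] at h
  · exact (Pool.Agent.W570.AV.sx_comp (n := n) 1 zero_le_one).image (by fun_prop)
  · have h := (Homeomorph.subRight x).image_interior (simplex n)
    have h2 : (interior (simplex n)).Nonempty := Pool.Agent.W570.AV.sx_int
    have h3 : interior ((fun z : Fin n → ℝ => z - x) '' simplex n) =
        (fun z : Fin n → ℝ => z - x) '' interior (simplex n) := h.symm
    rw [h3]
    exact h2.image _

/-- **Mahler's conjecture for general (not necessarily symmetric) convex bodies**: the case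
`p = ∞` of Q1, in every dimension and for every position of the body, with the equality case. -/
theorem result : ∀ n : ℕ,
    -- the inequality of Q1 for `p = ∞`
    (∀ K : Set (Fin n → ℝ), Body K → simplexInfTop n ≤ mahlerInf K) ∧
    -- the value of the right side
    simplexInfTop n = ENNReal.ofReal (((n:ℝ) + 1) ^ (n + 1) / n.factorial) ∧
    -- the equality case: exactly the simplices with centroid at the origin
    (1 ≤ n → ∀ K : Set (Fin n → ℝ), Body K →
      (mahlerInf K = simplexInfTop n ↔ ∃ v : Fin (n + 1) → (Fin n → ℝ),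
        AffineIndependent ℝ v ∧ ∑ i, v i = 0 ∧ K = convexHull ℝ (Set.range v))) ∧
    -- the same inequality in terms of the polar bodies
    (∀ K : Set (Fin n → ℝ), Body K → ∀ z ∈ interior K,
      ((n:ℝ) + 1) ^ (n + 1) / (n.factorial : ℝ) ^ 2 ≤
        volume.real K * volume.real (polarAt K z)) := by
  intro n
  have hv : simplexInfTop n = ENNReal.ofReal (((n:ℝ) + 1) ^ (n + 1) / n.factorial) := by
    refine le_antisymm Pool.Agent.W570.NQ.infi_le ?_
    exact le_iInf₂ fun x _ => low (body_simplex x)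
  refine ⟨fun K hK => hv.trans_le (low hK), hv, fun hn K hK => ?_, fun K hK z hz => ?_⟩
  · rw [hv, ← mz_zero hK]
    exact (Pool.Agent.TH649.LOC.top_low hn (bd hK)).2
  have h := Pool.Agent.TH433.MF.mahler n K (bd hK) z
  rw [Pool.Agent.TH808.MZ_plr hK.2.1 hK.1 hz] at h
  have e : Pool.Agent.TH808.plr K z = polarAt K z := rfl
  rw [e] at h
  have hf : (0:ℝ) < n.factorial := by positivity
  have hfin : (n.factorial : ℝ≥0∞) * (volume K * volume (polarAt K z)) ≠ ⊤ := by
    have hNB := Pool.Agent.W570.AV.tr_NB hK.1 hK.2.1 hz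
    have hp := (H801NS.t_POL n (Pool.Agent.W570.AV.tr z K) ⟨hNB.comp, hNB.conv, hNB.zero⟩).1.comp
    have e2 : H801NS.pol (Pool.Agent.W570.AV.tr z K) = polarAt K z := by
      ext y
      constructor
      · intro h x hx
        exact h _ ⟨x, hx, rfl⟩
      · rintro h _ ⟨x, hx, rfl⟩
        exact h x hx
    rw [e2] at hp
    exact ENNReal.mul_ne_top (ENNReal.natCast_ne_top _)
      (ENNReal.mul_ne_top hK.2.1.measure_lt_top.ne hp.measure_lt_top.ne)
  have h2 := (ENNReal.ofReal_le_iff_le_toReal hfin).1 h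
  rw [ENNReal.toReal_mul, ENNReal.toReal_mul, ENNReal.toReal_natCast] at h2
  unfold Pool.Agent.TH808.sv at h2
  rw [div_le_iff₀ hf] at h2
  rw [div_le_iff₀ (by positivity)]
  calc ((n:ℝ) + 1) ^ (n + 1) ≤ _ := h2
    _ = _ := by simp only [Measure.real]; ring

end Pool.Agent.Results.MP_5f4cdd_gt.ClassicalMahler
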