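import Pool.Agent.TH649.LP.C10
import Pool.Agent.W679.A6

/-!
# Cones, prisms and the growth of the `L^p`-Mahler volume of the simplex

For every body `L` in every position the cone over `L` satisfies `M_p(cone L) ≤ b_N(p) M_p(L)`
with an explicit one-dimensional integral `b_N(p)`, and `M_p(cone L) ≤ q_N M_p(L × [a,b])`.
Consequences: the inequality of Q1 passes to products with boxes; the conjectured minimum
`inf_x M_p(Δ_n - x)` grows exactly like `r(p)^n`, `r(p) = e^(1+1/p) p^(1/p) Γ(1+1/p)`; the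
inequality of Q1 holds strictly in high dimensions for all bodies of large Mahler volume, in
particular for all centrally symmetric bodies and every `p ≥ 2`.
-/

set_option autoImplicit false

noncomputable section

open MeasureTheory Set Filter
open scoped ENNReal Pointwise Topology

namespace Pool.Agent.Results.MP_5f4cdd_gt.Cones

/-- convex bodies in `ℝⁿ` (in any position) -/
def Body {n : ℕ} (K : Set (Fin n → ℝ)) : Prop := Convex ℝ K ∧ IsCompact K ∧ (interior K).Nonempty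

/-- The `L^p`-Mahler volume `M_p(K) = vol(K) ∫ exp(-h_{p,K}(y)) dy` for `0 < p < ∞`, where
`exp(-h_{p,K}(y)) = ((1/vol K) ∫_K exp(p⟨x,y⟩) dx)^(-1/p)`. -/
def mahlerVolume {n : ℕ} (p : ℝ) (K : Set (Fin n → ℝ)) : ℝ≥0∞ :=
  volume K * ∫⁻ y : Fin n → ℝ, ENNReal.ofReal
    (((∫ x in K, Real.exp (p * ∑ i, x i * y i)) / (volume K).toReal) ^ (-(1 / p)))

/-- The classical Mahler volume `M_∞(K) = vol(K) ∫ exp(-h_K(y)) dy` (the case `p = ∞`), where
`h_K(y) = sup_{x ∈ K} ⟨x, y⟩`. -/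
def mahlerInf {n : ℕ} (K : Set (Fin n → ℝ)) : ℝ≥0∞ :=
  volume K * ∫⁻ y : Fin n → ℝ, ENNReal.ofReal
    (Real.exp (-(sSup ((fun x : Fin n → ℝ => ∑ i, x i * y i) '' K))))

/-- the standard simplex `Δ_n` -/
def simplex (n : ℕ) : Set (Fin n → ℝ) := {z | (∀ i, 0 ≤ z i) ∧ ∑ i, z i ≤ 1}

/-- the infimum of `M_p(Δ_n - x)` over `x ∈ Δ_n` -/
def simplexInf (n : ℕ) (p : ℝ) : ℝ≥0∞ :=
  ⨅ x ∈ simplex n, mahlerVolume p ((fun z : Fin n → ℝ => z - x) '' simplex n)

/-- the translate `K - z` -/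
def shift {n : ℕ} (K : Set (Fin n → ℝ)) (z : Fin n → ℝ) : Set (Fin n → ℝ) := (fun x => x - z) '' K

/-- the cone `{((1 - t) x, t) : x ∈ L, 0 ≤ t ≤ 1} ⊆ ℝ^(n+1)` over `L ⊆ ℝ^n` -/
def cone {n : ℕ} (L : Set (Fin n → ℝ)) : Set (Fin (n + 1) → ℝ) :=
  {w | w (Fin.last n) ∈ Icc (0:ℝ) 1 ∧ ∃ x ∈ L, ∀ i : Fin n,
    w i.castSucc = (1 - w (Fin.last n)) * x i}

/-- the prism `L × [a,b] ⊆ ℝ^(n+1)` -/
def prism {n : ℕ} (L : Set (Fin n → ℝ)) (a b : ℝ) : Set (Fin (n + 1) → ℝ) :=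
  {w | (fun i : Fin n => w i.castSucc) ∈ L ∧ w (Fin.last n) ∈ Icc a b}

/-- the point `(((n+1)/(n+2)) (z_1, …, z_n), 1/(n+2))` of `ℝ^(n+1)` -/
def conePoint {n : ℕ} (z : Fin (n + 1) → ℝ) : Fin (n + 1) → ℝ := fun i =>
  if i = Fin.last n then 1 / ((n:ℝ) + 2) else ((n:ℝ) + 1) / ((n:ℝ) + 2) * z i

/-- the product `K × [a_1,b_1] × … × [a_j,b_j] ⊆ ℝ^(n+j)` -/
def boxProduct {n j : ℕ} (K : Set (Fin n → ℝ)) (a b : Fin j → ℝ) : Set (Fin (n + j) → ℝ) :=
  {w | (fun i : Fin n => w (Fin.castAdd j i)) ∈ K ∧ ∀ i : Fin j, w (Fin.natAdd n i) ∈ Icc (a i) (b i)}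

/-- the constant `√((1 + 1/N)^(2N+1) / 8)`: it is `1` for `N = 1` and `< 1` for `N ≥ 2` -/
def q (N : ℕ) : ℝ := √((1 + 1 / (N:ℝ)) ^ (2 * N + 1) / 8)

/-- the constant `b_N(p) = ((N+1)/N)^N (1/p) ∫_ℝ (∫_0^1 N (1-s)^(N-1) exp(x((N+1)s - 1)) ds)^(-1/p) dx` -/
def coneConst (N : ℕ) (p : ℝ) : ℝ≥0∞ :=
  ENNReal.ofReal ((((N:ℝ) + 1) / N) ^ N * (1 / p)) * ∫⁻ x : ℝ, ENNReal.ofReal
    ((∫ s in (0:ℝ)..1, (N:ℝ) * (1 - s) ^ (N - 1) * Real.exp (x * (((N:ℝ) + 1) * s - 1))) ^ (-(1 / p)))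

/-- the rate `r(p) = e^(1+1/p) p^(1/p) Γ(1+1/p)` -/
def rate (p : ℝ) : ℝ := Real.exp (1 + 1 / p) * p ^ (1 / p) * Real.Gamma (1 + 1 / p)

/-- `b_p(m) = (1+1/p)^((1+1/p)/2) (p/2π)^(1/(2p)) m^(1+1/(2p))` -/
def bound (p m : ℝ) : ℝ :=
  ((1 + 1 / p) ^ ((1 + 1 / p) / 2) * (p / (2 * Real.pi)) ^ (1 / (2 * p))) * m ^ (1 + 1 / (2 * p))

lemma cb {n : ℕ} {K : Set (Fin n → ℝ)} (hK : Body K) : Pool.Agent.H404R2.TH.CB K :=
  ⟨hK.2.1, hK.1, hK.2.2⟩

lemma inf_eq (n : ℕ) (p : ℝ) : simplexInf n p = Pool.Agent.H131R5.LC.II n p := rfl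

lemma coneConst_eq (N : ℕ) (p : ℝ) : coneConst N p = Pool.Agent.TH649.LP.bN N p := rfl

lemma cone_eq {n : ℕ} (L : Set (Fin n → ℝ)) : Pool.Agent.TH649.LP.coneS L = cone L := by
  ext w
  constructor
  · rintro ⟨h1, x, hx, h2⟩
    exact ⟨h1, x, hx, fun i => by simpa using congrFun h2 i⟩
  · rintro ⟨h1, x, hx, h2⟩
    refine ⟨h1, x, hx, ?_⟩
    funext i
    simpa using h2 i

lemma point_eq {n : ℕ} (z : Fin (n + 1) → ℝ) :
    Pool.Agent.TH649.LP.sn ((((n:ℝ) + 1) / (n + 2)) • fun i : Fin n => z i.castSucc)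
      (1 / ((n:ℝ) + 2)) = conePoint z := by
  funext i
  refine Fin.lastCases ?_ (fun j => ?_) i
  · simp [conePoint]
  · rw [Pool.Agent.TH649.LP.sn_castSucc]
    simp [conePoint, (Fin.castSucc_lt_last j).ne]

lemma large {p m : ℝ} (hp : 0 < p) (hm : 0 < m) (h : rate p < bound p m) :
    ∃ n₀ : ℕ, ∀ n : ℕ, n₀ ≤ n → ∀ K : Set (Fin n → ℝ), Body K →
      ENNReal.ofReal (m ^ n) ≤ mahlerInf K → simplexInf n p < mahlerVolume p K := by
  obtain ⟨n0, hn0⟩ := Pool.Agent.TH649.LP.II_lt hp h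
  refine ⟨n0, fun n hn K hK hKm => ?_⟩
  rw [inf_eq]
  exact lt_of_lt_of_le (hn0 n hn) (Pool.Agent.TH581.S.low_of (cb hK) hp hm hKm)

lemma smallDiff {p κ : ℝ} (hp : 0 < p) (hκ : 0 < κ) (h : rate p < bound p (2 + 8 / κ ^ 2)) :
    ∃ n₀ : ℕ, ∀ n : ℕ, n₀ ≤ n → ∀ K : Set (Fin n → ℝ), Body K →
      volume.real (K - K) ≤ κ ^ n * volume.real K → simplexInf n p < mahlerVolume p K := by
  obtain ⟨n0, hn0⟩ := large hp (by positivity) h
  refine ⟨max n0 1, fun n hn K hK hKd => ?_⟩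
  exact hn0 n ((le_max_left _ _).trans hn) K hK
    (Pool.Agent.W570.NQ.mah_low_kappa ((le_max_right _ _).trans hn) hK.1 hK.2.1 hK.2.2 hκ hKd)

lemma symm_diff {n : ℕ} {K : Set (Fin n → ℝ)} (hK : Body K) {z : Fin n → ℝ}
    (hz : ∀ x ∈ K, (2:ℝ) • z - x ∈ K) : volume.real (K - K) ≤ 2 ^ n * volume.real K := by
  have hsub : K - K ⊆ {-((2:ℝ) • z)} + (2:ℝ) • K := by
    rintro _ ⟨x, hx, y, hy, rfl⟩
    refine ⟨-((2:ℝ) • z), rfl, (2:ℝ) • ((1/2 : ℝ) • x + (1/2 : ℝ) • ((2:ℝ) • z - y)),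
      ⟨_, hK.1 hx (hz y hy) (by norm_num) (by norm_num) (by norm_num), rfl⟩, ?_⟩
    simp only
    module
  have hfin : volume ({-((2:ℝ) • z)} + (2:ℝ) • K) ≠ ⊤ := by
    rw [Set.singleton_add, Set.image_add_left, measure_preimage_add]
    exact (hK.2.1.smul _).measure_lt_top.ne
  have h1 := ENNReal.toReal_mono hfin (measure_mono hsub)
  rw [Set.singleton_add, Set.image_add_left, measure_preimage_add, Measure.addHaar_smul,
    Module.finrank_fin_fun, ENNReal.toReal_mul, ENNReal.toReal_ofReal (by positivity),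
    abs_of_pos (by positivity)] at h1
  exact h1

/-- **Cones, prisms, and the growth of the `L^p`-Mahler volume of the simplex.** -/
theorem result :
    -- the constants of (2)
    (q 1 = 1 ∧ ∀ N : ℕ, 2 ≤ N → q N < 1) ∧
    -- (1) the cone over a body against the body, in every position
    (∀ (n : ℕ) (L : Set (Fin n → ℝ)), IsCompact L → (interior L).Nonempty → ∀ p : ℝ, 0 < p →
      ∀ z : Fin (n + 1) → ℝ, mahlerVolume p (shift (cone L) (conePoint z)) ≤
        coneConst (n + 1) p * mahlerVolume p (shift L fun i => z i.castSucc)) ∧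
    -- (2) the cone over a body against the prism over it
    (∀ (n : ℕ) (L : Set (Fin n → ℝ)), IsCompact L → (interior L).Nonempty → ∀ p : ℝ, 0 < p →
      ∀ a b : ℝ, a < b → ∀ z : Fin (n + 1) → ℝ,
        mahlerVolume p (shift (cone L) (conePoint z)) ≤
          ENNReal.ofReal (q (n + 1)) * mahlerVolume p (shift (prism L a b) z)) ∧
    -- (3) the inequality of Q1 (with any constant) passes to products with boxes
    (∀ (n j : ℕ) (K : Set (Fin n → ℝ)), IsCompact K → (interior K).Nonempty → ∀ p : ℝ, 0 < p →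
      ∀ c : ℝ≥0∞, (∀ z : Fin n → ℝ, c * simplexInf n p ≤ mahlerVolume p (shift K z)) →
      ∀ a b : Fin j → ℝ, (∀ i, a i < b i) →
      ∀ (A : (Fin (n + j) → ℝ) ≃ₗ[ℝ] (Fin (n + j) → ℝ)) (z : Fin (n + j) → ℝ),
        c * simplexInf (n + j) p ≤ ENNReal.ofReal (∏ i ∈ Finset.range j, q (n + i + 1)) *
          mahlerVolume p (shift (A '' boxProduct K a b) z)) ∧
    -- strict inequality for planar bodies, and polytopes with at most `n + 2` vertices, times boxes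
    (∀ (n j : ℕ) (K : Set (Fin n → ℝ)), 1 ≤ j → 1 ≤ n → IsCompact K → Convex ℝ K →
      (interior K).Nonempty →
      (n = 2 ∨ ∃ P : Finset (Fin n → ℝ), P.card ≤ n + 2 ∧
        K = convexHull ℝ (P : Set (Fin n → ℝ))) →
      ∀ p : ℝ, 0 < p → ∀ a b : Fin j → ℝ, (∀ i, a i < b i) →
      ∀ (A : (Fin (n + j) → ℝ) ≃ₗ[ℝ] (Fin (n + j) → ℝ)) (z : Fin (n + j) → ℝ),
        simplexInf (n + j) p < mahlerVolume p (shift (A '' boxProduct K a b) z)) ∧
    -- (4) the exact exponential rate of the simplex, for every `p`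
    (∀ p : ℝ, 0 < p →
      Tendsto (fun n : ℕ => simplexInf n p ^ ((1 : ℝ) / n)) atTop (𝓝 (ENNReal.ofReal (rate p)))) ∧
    (∀ p : ℝ, 0 < p → ∀ n : ℕ, ENNReal.ofReal (rate p ^ n * (Real.Gamma (1 + 1 / p) /
      (Real.exp 1 * ((1 + 1 / p) * ((n:ℝ) + 1)) ^ (1 + 1 / p)))) ≤ simplexInf n p) ∧
    -- (5) the inequality of Q1 for the bodies of Mahler volume at least `m^n`
    (∀ p m : ℝ, 0 < p → 0 < m → rate p < bound p m →
      ∃ n₀ : ℕ, ∀ n : ℕ, n₀ ≤ n → ∀ K : Set (Fin n → ℝ), Body K →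
        ENNReal.ofReal (m ^ n) ≤ mahlerInf K → simplexInf n p < mahlerVolume p K) ∧
    -- for the bodies with `|K - K| ≤ κⁿ |K|`
    (∀ p κ : ℝ, 0 < p → 0 < κ → rate p < bound p (2 + 8 / κ ^ 2) →
      ∃ n₀ : ℕ, ∀ n : ℕ, n₀ ≤ n → ∀ K : Set (Fin n → ℝ), Body K →
        volume.real (K - K) ≤ κ ^ n * volume.real K → simplexInf n p < mahlerVolume p K) ∧
    -- for all centrally symmetric bodies (about any point `z`), for every `p ≥ 2`
    (∀ p : ℝ, 2 ≤ p → ∃ n₀ : ℕ, ∀ n : ℕ, n₀ ≤ n → ∀ K : Set (Fin n → ℝ), Body K →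
      ∀ z : Fin n → ℝ, (∀ x ∈ K, (2:ℝ) • z - x ∈ K) → simplexInf n p < mahlerVolume p K) := by
  refine ⟨⟨?_, ?_⟩, ?_, ?_, ?_, ?_, fun p hp => ?_,
    fun p hp n => Pool.Agent.TH649.LP.lowr_le n hp,
    fun p m hp hm h => large hp hm h, fun p κ hp hκ h => smallDiff hp hκ h, fun p hp => ?_⟩
  · have h := Pool.Agent.TH649.LP.qN_eq (N := 1) le_rfl
    rw [Pool.Agent.TH649.LP.qN_one] at h
    exact h.symm
  · intro N hN
    have h := Pool.Agent.TH649.LP.qN_lt hN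
    rw [Pool.Agent.TH649.LP.qN_eq (by omega)] at h
    exact h
  · intro n L hc hi p hp z
    have h := Pool.Agent.TH649.LP.cone_le2 hp hc hi (fun i => z i.castSucc)
    rw [cone_eq, point_eq] at h
    refine h.trans (le_of_eq ?_)
    rw [coneConst_eq]
    unfold Pool.Agent.TH649.LP.bN
    have e : ENNReal.ofReal ((((n:ℝ) + 2) / (n + 1)) ^ (n + 1) * (1 / p)) =
        ENNReal.ofReal (((((n + 1 : ℕ):ℝ) + 1) / ((n + 1 : ℕ):ℝ)) ^ (n + 1) * (1 / p)) := by
      push_cast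
      congr 4
      ring
    rw [e]
    rfl
  · intro n L hc hi p hp a b hab z
    have h := Pool.Agent.TH649.LP.cone_le_prism hp hc hi hab z
    have e2 : Pool.Agent.TH649.LP.prismS a b L = prism L a b := by
      ext w
      exact and_comm
    rw [Pool.Agent.TH649.LP.qN_eq (by omega), cone_eq, e2, point_eq] at h
    exact h
  · intro n j K hc hi p hp c hK a b hab A z
    have h := Pool.Agent.TH649.LP.box_main hp hc hi (c := c) (fun z => hK z) a b hab A z
    have e : Pool.Agent.TH649.LP.QQ n j = ∏ i ∈ Finset.range j, q (n + i + 1) := by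
      unfold Pool.Agent.TH649.LP.QQ
      exact Finset.prod_congr rfl fun i _ => Pool.Agent.TH649.LP.qN_eq (by omega)
    rw [e] at h
    exact h
  · intro n j K hj hn hc hconv hi hK p hp a b hab A z
    have hLB : Pool.Agent.H131R5.LC.LB p (Pool.Agent.H131R5.LC.II n p) K := by
      rcases hK with h2 | ⟨P, hP, rfl⟩
      · obtain ⟨x0, hx0⟩ := hi
        have hx0K : x0 ∈ K := interior_subset hx0
        refine Pool.Agent.H131R5.LC.LB_sub x0 ?_
        have hcv : Convex ℝ ((fun x => x - x0) '' K) := by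
          have h1 := hconv.translate (-x0)
          have h3 : (fun w => -x0 + w) '' K = (fun x => x - x0) '' K := by
            refine Set.image_congr fun w _ => ?_
            abel
          rwa [h3] at h1
        have hint : (interior ((fun x => x - x0) '' K)).Nonempty := by
          have h3 : (fun x => x - x0) '' interior K = interior ((fun x => x - x0) '' K) :=
            (Homeomorph.subRight x0).image_interior _
          rw [← h3]
          exact ⟨_, x0, hx0, rfl⟩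
        have h4 := Pool.Agent.W679.A.full (ι := Fin 1) hp (fun _ => (⊤ : Submodule ℝ (Fin n → ℝ)))
          (by simp) (fun _ => (fun x => x - x0) '' K) (fun _ => hc.image (by fun_prop))
          (fun _ => hcv) (fun _ => ⟨x0, hx0K, sub_self _⟩) (fun _ _ _ => Submodule.mem_top)
          (fun _ => Or.inl (by simp [h2])) (by
            rw [iUnion_const, hcv.convexHull_eq]
            exact hint)
        rw [iUnion_const, hcv.convexHull_eq] at h4
        exact h4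
      · exact Pool.Agent.H131R5.LC.few hp P hP hi
    exact Pool.Agent.TH649.LP.box_strict hp hc hi hLB hj (by omega) a b hab A z
  · have h1 := ENNReal.tendsto_ofReal (Pool.Agent.TH649.LP.rate hp)
    refine h1.congr fun n => ?_
    rw [← ENNReal.ofReal_rpow_of_nonneg ENNReal.toReal_nonneg (by positivity),
      ENNReal.ofReal_toReal (Pool.Agent.TH649.LP.II_lt_top n hp).ne]
    rfl
  · have hp0 : 0 < p := by linarith
    have h4 : rate p < bound p (2 + 8 / 2 ^ 2) := by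
      have := Pool.Agent.TH649.LP.eps_lt_four hp
      norm_num
      exact this
    obtain ⟨n0, hn0⟩ := smallDiff hp0 (κ := 2) (by norm_num) h4
    exact ⟨n0, fun n hn K hK z hz => hn0 n hn K hK (symm_diff hK hz)⟩

end Pool.Agent.Results.MP_5f4cdd_gt.Cones
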