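import Pool.Agent.TH649.LOC.All
import Pool.Agent.TH433.MF.Sharp
import Pool.Agent.TH581.S11

/-!
# The non-symmetric `L^p`-Mahler inequality for all convex bodies and all large finite `p`

For every `n ≥ 1` there is `p₀` such that for all real `p ≥ p₀` and all convex bodies `K` of `ℝⁿ`
(in all positions) the `L^p`-Mahler volume of `K` is at least `inf_x M_p(Δ_n - x)`, with equality
if and only if `K` is a simplex with centroid at the origin.  For every `p > 0` and every `n` the
inequality holds up to an explicit factor `γ(p)^n`, and `γ(p) → 1` as `p → ∞`.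
-/

set_option autoImplicit false

noncomputable section

open MeasureTheory
open scoped ENNReal Pointwise

namespace Pool.Agent.Results.MP_5f4cdd_gt.LargeP

/-- convex bodies in `ℝⁿ` (in any position) -/
def Body {n : ℕ} (K : Set (Fin n → ℝ)) : Prop := Convex ℝ K ∧ IsCompact K ∧ (interior K).Nonempty

/-- The `L^p`-Mahler volume `M_p(K) = vol(K) ∫ exp(-h_{p,K}(y)) dy` for `0 < p < ∞`, where
`exp(-h_{p,K}(y)) = ((1/vol K) ∫_K exp(p⟨x,y⟩) dx)^(-1/p)`. -/
def mahlerVolume {n : ℕ} (p : ℝ) (K : Set (Fin n → ℝ)) : ℝ≥0∞ :=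
  volume K * ∫⁻ y : Fin n → ℝ, ENNReal.ofReal
    (((∫ x in K, Real.exp (p * ∑ i, x i * y i)) / (volume K).toReal) ^ (-(1 / p)))

/-- the standard simplex `Δ_n` -/
def simplex (n : ℕ) : Set (Fin n → ℝ) := {z | (∀ i, 0 ≤ z i) ∧ ∑ i, z i ≤ 1}

/-- the infimum of `M_p(Δ_n - x)` over `x ∈ Δ_n` -/
def simplexInf (n : ℕ) (p : ℝ) : ℝ≥0∞ :=
  ⨅ x ∈ simplex n, mahlerVolume p ((fun z : Fin n → ℝ => z - x) '' simplex n)

/-- `K` is a simplex with centroid at the origin: the convex hull of `n + 1` affinely independent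
points whose sum is `0` -/
def CentredSimplex {n : ℕ} (K : Set (Fin n → ℝ)) : Prop :=
  ∃ v : Fin (n + 1) → (Fin n → ℝ), AffineIndependent ℝ v ∧ ∑ i, v i = 0 ∧
    K = convexHull ℝ (Set.range v)

/-- `c(p) = (1+1/p)^((1+1/p)/2) (p/2π)^(1/(2p))` -/
def cst (p : ℝ) : ℝ := (1 + 1 / p) ^ ((1 + 1 / p) / 2) * (p / (2 * Real.pi)) ^ (1 / (2 * p))

/-- `β(p) = (1+p)^(1+1/p)/p` -/
def beta (p : ℝ) : ℝ := (1 + p) ^ (1 + 1 / p) / p

/-- `γ(p) = c(p) e^(1/(2p)) / β(p)` -/
def gamma (p : ℝ) : ℝ := cst p * Real.exp (1 / (2 * p)) / beta p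

/-- the case `p = ∞` (Mahler's inequality) -/
theorem low {n : ℕ} {K : Set (Fin n → ℝ)} (hK : Body K) :
    ENNReal.ofReal (((n:ℝ) + 1) ^ (n + 1) / n.factorial) ≤ Pool.Agent.W570.AV.mah K := by
  have h := Pool.Agent.TH433.MF.mahler n K ⟨hK.2.1, hK.1, hK.2.2⟩ 0
  rw [Pool.Agent.TH808.MZ_mah hK.2.1 (hK.2.2.mono interior_subset)] at h
  have e : Pool.Agent.W570.AV.tr 0 K = K := by
    unfold Pool.Agent.W570.AV.tr
    simp
  rw [e] at h
  exact h

/-- the value of the infimum is the value at the centroid -/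
lemma infp_eq {n : ℕ} {p : ℝ} (hp : 0 < p) :
    simplexInf n p = Pool.Agent.H131R5.LM.Mp p (Pool.Agent.H131R5.LM.Sn n) := by
  apply le_antisymm
  · have h2 := iInf₂_le (f := fun (x : Fin n → ℝ) (_ : x ∈ simplex n) =>
      mahlerVolume p ((fun z : Fin n → ℝ => z - x) '' simplex n))
      _ (Pool.Agent.H131R5.LM.center_mem (n := n))
    rw [← Pool.Agent.H131R5.LM.image_Dn]
    exact h2
  · refine le_iInf₂ fun x _ => ?_
    have h := Pool.Agent.TH649.LOC.Mp_shift_le (n := n) hp (x - fun _ => 1 / ((n:ℝ) + 1))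
    have e : (fun y : Fin n → ℝ => y - (x - fun _ => 1 / ((n:ℝ) + 1))) ''
        Pool.Agent.H131R5.LM.Sn n = (fun z : Fin n → ℝ => z - x) '' simplex n := by
      rw [← Pool.Agent.H131R5.LM.image_Dn, Set.image_image]
      refine Set.image_congr fun z _ => ?_
      abel
    rw [e] at h
    exact h

/-- `e^n ≤ (n+1)^(n+1)/n!` -/
lemma growth (n : ℕ) : Real.exp n ≤ ((n:ℝ) + 1) ^ (n + 1) / n.factorial := by
  induction n with
  | zero => simp
  | succ k ih =>
    have hk : (0:ℝ) < (k:ℝ) + 1 := by positivity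
    have h1 := Real.one_sub_inv_le_log_of_pos (x := ((k:ℝ) + 2) / (k + 1)) (by positivity)
    have h2 : (1:ℝ) ≤ ((k:ℝ) + 2) * Real.log (((k:ℝ) + 2) / (k + 1)) := by
      rw [inv_div] at h1
      have h3 : 1 - ((k:ℝ) + 1) / (k + 2) = 1 / (k + 2) := by field_simp; ring
      rw [h3, div_le_iff₀ (by positivity)] at h1
      linarith
    have h3 : Real.exp 1 ≤ (((k:ℝ) + 2) / (k + 1)) ^ (k + 2) := by
      calc Real.exp 1 ≤ Real.exp (((k:ℝ) + 2) * Real.log (((k:ℝ) + 2) / (k + 1))) :=
            Real.exp_le_exp.2 h2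
        _ = (((k:ℝ) + 2) / (k + 1)) ^ (k + 2) := by
            rw [← Real.rpow_natCast, Real.rpow_def_of_pos (by positivity)]
            push_cast
            ring_nf
    calc Real.exp ((k + 1 : ℕ) : ℝ) = Real.exp k * Real.exp 1 := by
          rw [← Real.exp_add]; push_cast; rfl
      _ ≤ (((k:ℝ) + 1) ^ (k + 1) / k.factorial) * (((k:ℝ) + 2) / (k + 1)) ^ (k + 2) := by gcongr
      _ = _ := by
          rw [Nat.factorial_succ, div_pow]
          push_cast
          field_simp
          ring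

/-- `γ(p) → 1` -/
lemma tendsto_gamma : Filter.Tendsto gamma Filter.atTop (nhds 1) := by
  have hinv : Filter.Tendsto (fun p : ℝ => 1 / p) Filter.atTop (nhds 0) :=
    tendsto_const_nhds.div_atTop Filter.tendsto_id
  have h1 : Filter.Tendsto (fun p : ℝ => (1 + 1 / p) ^ ((1 + 1 / p) / 2)) Filter.atTop
      (nhds 1) := by
    have ha : Filter.Tendsto (fun p : ℝ => 1 + 1 / p) Filter.atTop (nhds (1 + 0)) :=
      tendsto_const_nhds.add hinv
    have hb := ha.rpow (ha.div_const 2) (Or.inl (by norm_num))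
    simpa using hb
  have h2 : Filter.Tendsto (fun p : ℝ => (p / (2 * Real.pi)) ^ (1 / (2 * p))) Filter.atTop
      (nhds 1) := by
    have ha := tendsto_rpow_div_mul_add 1 (4 * Real.pi) 0 (by positivity)
    have hb : Filter.Tendsto (fun p : ℝ => p / (2 * Real.pi)) Filter.atTop Filter.atTop :=
      Filter.Tendsto.atTop_div_const (by positivity) Filter.tendsto_id
    refine (ha.comp hb).congr fun p => ?_
    simp only [Function.comp]
    congr 2
    field_simp
    ring
  have h3 : Filter.Tendsto (fun p : ℝ => Real.exp (1 / (2 * p))) Filter.atTop (nhds 1) := by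
    have ha : Filter.Tendsto (fun p : ℝ => 1 / (2 * p)) Filter.atTop (nhds 0) :=
      tendsto_const_nhds.div_atTop
        (Filter.Tendsto.const_mul_atTop (by norm_num) Filter.tendsto_id)
    have hb := (Real.continuous_exp.tendsto 0).comp ha
    rw [Real.exp_zero] at hb
    exact hb
  have h4 : Filter.Tendsto beta Filter.atTop (nhds 1) := by
    have ha : Filter.Tendsto (fun p : ℝ => (1 + p) ^ (1 / p)) Filter.atTop (nhds 1) := by
      have hc := tendsto_rpow_div_mul_add 1 1 (-1) (by norm_num)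
      have hd : Filter.Tendsto (fun p : ℝ => 1 + p) Filter.atTop Filter.atTop :=
        Filter.tendsto_atTop_add_const_left _ _ Filter.tendsto_id
      refine (hc.comp hd).congr fun p => ?_
      simp only [Function.comp]
      congr 2
      ring
    have hb : Filter.Tendsto (fun p : ℝ => 1 / p + 1) Filter.atTop (nhds (0 + 1)) :=
      hinv.add tendsto_const_nhds
    have hc := hb.mul ha
    rw [zero_add, one_mul] at hc
    refine hc.congr' ?_
    filter_upwards [Filter.eventually_gt_atTop 0] with p hp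
    unfold beta
    rw [Real.rpow_add (by positivity), Real.rpow_one]
    field_simp
  have h5 := ((h1.mul h2).mul h3).div h4 one_ne_zero
  rw [one_mul, one_mul, div_one] at h5
  exact h5

/-- **The non-symmetric `L^p`-Mahler inequality for all convex bodies and all large `p`.** -/
theorem result :
    -- all `p` from some `p₀(n)` on: the inequality with the cases of equality
    (∀ n : ℕ, 1 ≤ n → ∃ p₀ : ℝ, 0 < p₀ ∧ ∀ p : ℝ, p₀ ≤ p → ∀ K : Set (Fin n → ℝ), Body K →
      simplexInf n p ≤ mahlerVolume p K ∧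
      (mahlerVolume p K = simplexInf n p ↔ CentredSimplex K)) ∧
    -- all `p > 0`: lower bounds, and the inequality up to the factor `γ(p)^n`
    (∀ n : ℕ, 1 ≤ n → ∀ p : ℝ, 0 < p → ∀ K : Set (Fin n → ℝ), Body K →
      ENNReal.ofReal (cst p ^ n * (((n:ℝ) + 1) ^ (n + 1) / n.factorial) ^ (1 + 1 / (2 * p))) ≤
        mahlerVolume p K ∧
      ENNReal.ofReal (gamma p ^ n) * simplexInf n p ≤ mahlerVolume p K) ∧
    Filter.Tendsto gamma Filter.atTop (nhds 1) := by
  refine ⟨fun n hn => ?_, fun n hn p hp K hK => ?_, tendsto_gamma⟩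
  · obtain ⟨p0, hp0, h⟩ := Pool.Agent.TH649.LOC.all_form n hn
    refine ⟨p0, hp0, fun p hp K hK => ?_⟩
    rw [infp_eq (lt_of_lt_of_le hp0 hp)]
    exact h p hp K hK.2.1 hK.1 hK.2.2
  · have hc : 0 < cst p := Pool.Agent.TH581.S.ct_pos hp
    have hb : 0 < beta p := Pool.Agent.W570.NQ.bet_pos hp
    have hV : (0:ℝ) < ((n:ℝ) + 1) ^ (n + 1) / n.factorial := by positivity
    have hexp : 0 < 1 + 1 / (2 * p) := by positivity
    have h1 : ENNReal.ofReal (cst p ^ n * (((n:ℝ) + 1) ^ (n + 1) / n.factorial) ^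
        (1 + 1 / (2 * p))) ≤ mahlerVolume p K := by
      rw [ENNReal.ofReal_mul (by positivity), ← ENNReal.ofReal_rpow_of_pos hV]
      exact (mul_le_mul_right (ENNReal.rpow_le_rpow (low hK) hexp.le) _).trans
        (Pool.Agent.TH581.S.comp ⟨hK.2.1, hK.1, hK.2.2⟩ hp)
    refine ⟨h1, le_trans ?_ h1⟩
    refine (mul_le_mul_right (Pool.Agent.W570.NQ.infp_le hp) _).trans ?_
    rw [← ENNReal.ofReal_mul (by unfold gamma; positivity)]
    apply ENNReal.ofReal_le_ofReal
    set V : ℝ := ((n:ℝ) + 1) ^ (n + 1) / n.factorial with hVd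
    have h2 : Real.exp (1 / (2 * p)) ^ n ≤ V ^ (1 / (2 * p)) := by
      rw [← Real.exp_nat_mul]
      calc Real.exp (n * (1 / (2 * p))) = Real.exp n ^ (1 / (2 * p)) := by rw [← Real.exp_mul]
        _ ≤ V ^ (1 / (2 * p)) := Real.rpow_le_rpow (Real.exp_pos _).le (growth n) (by positivity)
    calc gamma p ^ n * (beta p ^ n * V)
        = cst p ^ n * (V * Real.exp (1 / (2 * p)) ^ n) := by
          unfold gamma
          rw [div_pow, mul_pow]
          field_simp
      _ ≤ cst p ^ n * (V * V ^ (1 / (2 * p))) := by gcongr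
      _ = cst p ^ n * V ^ (1 + 1 / (2 * p)) := by rw [Real.rpow_add hV, Real.rpow_one]

end Pool.Agent.Results.MP_5f4cdd_gt.LargeP
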