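import Pool.Agent.TH581.S13

/-!
# The `L^p`-Mahler volumes of a convex body and its Mahler volume

For every convex body in every position and every `p > 0`,
`M_p(K) ≥ [(1+1/p)^((1+1/p)/2) (p/2π)^(1/(2p))]^n M_∞(K)^(1+1/(2p))`,
and more generally `(M_p(K)/b(p)^n)^(1/(2+1/p))` is nonincreasing in `p`, where `b(p)^n` is the
exponential rate of Euclidean balls.
-/

set_option autoImplicit false

noncomputable section

open MeasureTheory
open scoped ENNReal Pointwise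

namespace Pool.Agent.Results.MP_5f4cdd_gt.StrongComparison

/-- convex bodies in `ℝⁿ` (in any position) -/
def Body {n : ℕ} (K : Set (Fin n → ℝ)) : Prop := Convex ℝ K ∧ IsCompact K ∧ (interior K).Nonempty

/-- The `L^p`-Mahler volume `M_p(K) = vol(K) ∫ exp(-h_{p,K}(y)) dy` for `0 < p < ∞`, where
`exp(-h_{p,K}(y)) = ((1/vol K) ∫_K exp(p⟨x,y⟩) dx)^(-1/p)`. -/
def mahlerVolume {n : ℕ} (p : ℝ) (K : Set (Fin n → ℝ)) : ℝ≥0∞ :=
  volume K * ∫⁻ y : Fin n → ℝ, ENNReal.ofReal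
    (((∫ x in K, Real.exp (p * ∑ i, x i * y i)) / (volume K).toReal) ^ (-(1 / p)))

/-- The classical Mahler volume `M_∞(K) = vol(K) ∫ exp(-h_K(y)) dy` (the case `p = ∞`), where
`h_K(y) = sup_{x ∈ K} ⟨x, y⟩`. -/
def mahlerInf {n : ℕ} (K : Set (Fin n → ℝ)) : ℝ≥0∞ :=
  volume K * ∫⁻ y : Fin n → ℝ, ENNReal.ofReal
    (Real.exp (-(sSup ((fun x : Fin n → ℝ => ∑ i, x i * y i) '' K))))

/-- the standard simplex `Δ_n` -/
def simplex (n : ℕ) : Set (Fin n → ℝ) := {z | (∀ i, 0 ≤ z i) ∧ ∑ i, z i ≤ 1}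

/-- the infimum of `M_p(Δ_n - x)` over `x ∈ Δ_n`, for `0 < p < ∞` -/
def simplexInf (n : ℕ) (p : ℝ) : ℝ≥0∞ :=
  ⨅ x ∈ simplex n, mahlerVolume p ((fun z : Fin n → ℝ => z - x) '' simplex n)

/-- `κ(K) = (|K - K|/|K|)^(1/n)` (it is `2` for symmetric bodies and less than `4` always) -/
def kappa {n : ℕ} (K : Set (Fin n → ℝ)) : ℝ :=
  (volume.real (K - K) / volume.real K) ^ ((1 : ℝ) / n)

/-- the constant `c(p) = (1+1/p)^((1+1/p)/2) (p/2π)^(1/(2p))` -/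
def cst (p : ℝ) : ℝ := (1 + 1 / p) ^ ((1 + 1 / p) / 2) * (p / (2 * Real.pi)) ^ (1 / (2 * p))

/-- the lower bound `b_p(m) = c(p) m^(1+1/(2p))` -/
def bound (p m : ℝ) : ℝ := cst p * m ^ (1 + 1 / (2 * p))

/-- the base `b(p) = 2π (1+1/p)^((1+1/p)/2) p^(1/(2p))` -/
def ballBase (p : ℝ) : ℝ :=
  2 * Real.pi * ((1 + 1 / p) ^ ((1 + 1 / p) / 2) * p ^ (1 / (2 * p)))

/-- `β(p) = (1+p)^(1+1/p)/p`, which tends to `1` as `p → ∞` -/
def beta (p : ℝ) : ℝ := (1 + p) ^ (1 + 1 / p) / p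

lemma cb {n : ℕ} {K : Set (Fin n → ℝ)} (hK : Body K) : Pool.Agent.H404R2.TH.CB K :=
  ⟨hK.2.1, hK.1, hK.2.2⟩

lemma kap {n : ℕ} (hn : 1 ≤ n) {K : Set (Fin n → ℝ)} (hK : Body K) :
    0 < kappa K ∧ ENNReal.ofReal ((2 + 8 / kappa K ^ 2) ^ n) ≤ mahlerInf K := by
  have hV : 0 < volume.real K := Pool.Agent.TH581.S.vol_pos (cb hK)
  have hD : 0 < volume.real (K - K) := by
    obtain ⟨a, ha⟩ := hK.2.2
    have hsub : (fun x => x - a) '' K ⊆ K - K := by
      rintro _ ⟨x, hx, rfl⟩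
      exact ⟨x, hx, a, interior_subset ha, rfl⟩
    have hfin : volume (K - K) ≠ ⊤ := by
      rw [sub_eq_add_neg]
      exact (hK.2.1.add hK.2.1.neg).measure_lt_top.ne
    have h1 := ENNReal.toReal_mono hfin (measure_mono hsub)
    have h2 : volume ((fun x => x - a) '' K) = volume K :=
      Pool.Agent.W570.AV.vol_tr a K
    rw [h2] at h1
    exact hV.trans_le h1
  have hk0 : 0 < kappa K := by
    unfold kappa
    positivity
  refine ⟨hk0, Pool.Agent.W570.NQ.mah_low_kappa hn hK.1 hK.2.1 hK.2.2 hk0 ?_⟩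
  have hn0 : (n : ℝ) ≠ 0 := by
    have : n ≠ 0 := by omega
    exact_mod_cast this
  unfold kappa
  rw [← Real.rpow_natCast, ← Real.rpow_mul (by positivity), one_div_mul_cancel hn0,
    Real.rpow_one, div_mul_cancel₀ _ hV.ne']

/-- **Lower bounds for all `L^p`-Mahler volumes of a convex body.** -/
theorem result :
    -- comparison with the Mahler volume: every body, every position, every `p`
    (∀ (n : ℕ) (K : Set (Fin n → ℝ)), Body K → ∀ p : ℝ, 0 < p →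
      ENNReal.ofReal (cst p ^ n) * mahlerInf K ^ (1 + 1 / (2 * p)) ≤ mahlerVolume p K) ∧
    -- the same for two exponents `q ≤ p`
    (∀ (n : ℕ) (K : Set (Fin n → ℝ)), Body K → ∀ p q : ℝ, 0 < q → q ≤ p →
      (mahlerVolume p K / ENNReal.ofReal (ballBase p ^ n)) ^ (1 / (2 + 1 / p)) ≤
        (mahlerVolume q K / ENNReal.ofReal (ballBase q ^ n)) ^ (1 / (2 + 1 / q))) ∧
    -- the bounds obtained from a bound for the Mahler volume
    (∀ (n : ℕ) (K : Set (Fin n → ℝ)), Body K → ∀ m : ℝ, 0 < m →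
      ENNReal.ofReal (m ^ n) ≤ mahlerInf K →
      (∀ p : ℝ, 0 < p → ENNReal.ofReal (bound p m ^ n) ≤ mahlerVolume p K) ∧
      (m < 2 * Real.pi → ∀ p : ℝ, 0 < p → p ≤ (2 * Real.pi - m) / m →
        ENNReal.ofReal ((m * Real.sqrt (2 * Real.pi / (2 * Real.pi - m))) ^ n) ≤
          mahlerVolume p K)) ∧
    -- lower bounds for all bodies
    (∀ n : ℕ, 1 ≤ n → ∀ K : Set (Fin n → ℝ), Body K →
      (∀ p : ℝ, 0 < p → ENNReal.ofReal (bound p (2 + 8 / kappa K ^ 2) ^ n) ≤ mahlerVolume p K ∧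
        ENNReal.ofReal (bound p (Real.exp 1) ^ n) ≤ mahlerVolume p K) ∧
      (∀ p : ℝ, 0 < p → p ≤ 3 / 2 → ENNReal.ofReal (3.6 ^ n) ≤ mahlerVolume p K) ∧
      (∀ p : ℝ, 0 < p → p ≤ 2 → ENNReal.ofReal (3.55 ^ n) ≤ mahlerVolume p K) ∧
      (∀ p : ℝ, 0 < p → p ≤ 3 → ENNReal.ofReal (3.43 ^ n) ≤ mahlerVolume p K) ∧
      (∀ p : ℝ, 0 < p → p ≤ 5 → ENNReal.ofReal (3.27 ^ n) ≤ mahlerVolume p K) ∧
      (∀ p : ℝ, 0 < p → p ≤ 10 → ENNReal.ofReal (3.08 ^ n) ≤ mahlerVolume p K)) ∧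
    -- the inequality of Q1 for the bodies of large Mahler volume
    (∀ (n : ℕ) (K : Set (Fin n → ℝ)), Body K → ∀ p m : ℝ, 0 < p → 0 < m →
      ENNReal.ofReal (m ^ n) ≤ mahlerInf K →
      beta p ^ n * (((n:ℝ) + 1) ^ (n + 1) / n.factorial) ≤ bound p m ^ n →
      simplexInf n p ≤ mahlerVolume p K) ∧
    (∀ p m : ℝ, 0 < p → 0 < m → Real.exp 1 * beta p < bound p m →
      ∃ n₀ : ℕ, ∀ n : ℕ, n₀ ≤ n → ∀ K : Set (Fin n → ℝ), Body K →
        ENNReal.ofReal (m ^ n) ≤ mahlerInf K → simplexInf n p < mahlerVolume p K) := by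
  have hcomp : ∀ (n : ℕ) (K : Set (Fin n → ℝ)), Body K → ∀ p : ℝ, 0 < p →
      ENNReal.ofReal (cst p ^ n) * mahlerInf K ^ (1 + 1 / (2 * p)) ≤ mahlerVolume p K :=
    fun n K hK p hp => Pool.Agent.TH581.S.comp (cb hK) hp
  have hlow : ∀ (n : ℕ) (K : Set (Fin n → ℝ)), Body K → ∀ p : ℝ, 0 < p → ∀ m : ℝ, 0 < m →
      ENNReal.ofReal (m ^ n) ≤ mahlerInf K → ENNReal.ofReal (bound p m ^ n) ≤ mahlerVolume p K :=
    fun n K hK p hp m hm h => Pool.Agent.TH581.S.low_of (cb hK) hp hm h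
  refine ⟨hcomp, ?_, ?_, ?_, ?_, ?_⟩
  · exact fun n K hK p q hq hqp => Pool.Agent.TH581.S.two_exp (cb hK) hq hqp
  · exact fun n K hK m hm h => ⟨fun p hp => hlow n K hK p hp m hm h,
      fun hm2 p hp hpm => Pool.Agent.TH581.S.low_small (cb hK) hp hm hm2 hpm h⟩
  · intro n hn K hK
    have he : ENNReal.ofReal (Real.exp 1 ^ n) ≤ mahlerInf K := Pool.Agent.TH581.S.mah_e (cb hK)
    have h52 : ENNReal.ofReal (2.718 ^ n) ≤ mahlerInf K := by
      refine (ENNReal.ofReal_le_ofReal (pow_le_pow_left₀ (by norm_num) ?_ n)).trans he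
      have := Real.exp_one_gt_d9
      norm_num at this ⊢
      linarith
    have hnum : ∀ (c q : ℝ), 0 ≤ c → 0 < q → c ≤ bound q 2.718 →
        ∀ p : ℝ, 0 < p → p ≤ q → ENNReal.ofReal (c ^ n) ≤ mahlerVolume p K := by
      intro c q hc hq hcq p hp hpq
      refine le_trans ?_ (Pool.Agent.TH581.S.mahp_anti (cb hK) hp hpq)
      refine le_trans (ENNReal.ofReal_le_ofReal (pow_le_pow_left₀ hc hcq n)) ?_
      exact hlow n K hK q hq _ (by norm_num) h52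
    refine ⟨fun p hp => ⟨?_, hlow n K hK p hp _ (Real.exp_pos 1) he⟩,
      hnum 3.6 (3 / 2) (by norm_num) (by norm_num) Pool.Agent.TH581.S.e1,
      hnum 3.55 2 (by norm_num) (by norm_num) Pool.Agent.TH581.S.e2,
      hnum 3.43 3 (by norm_num) (by norm_num) Pool.Agent.TH581.S.e3,
      hnum 3.27 5 (by norm_num) (by norm_num) Pool.Agent.TH581.S.e5,
      hnum 3.08 10 (by norm_num) (by norm_num) Pool.Agent.TH581.S.e10⟩
    obtain ⟨hk0, hk1⟩ := kap hn hK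
    exact hlow n K hK p hp _ (by positivity) hk1
  · intro n K hK p m hp hm h h2
    exact (Pool.Agent.W570.NQ.infp_le hp).trans ((ENNReal.ofReal_le_ofReal h2).trans
      (hlow n K hK p hp m hm h))
  · intro p m hp hm h
    have hb : 0 < beta p := Pool.Agent.W570.NQ.bet_pos hp
    have hc : 0 < bound p m := Pool.Agent.TH581.S.bd_pos hp hm
    obtain ⟨n0, hn0⟩ := Pool.Agent.W570.NQ.big_n
      (c := bound p m / beta p) (by rw [lt_div_iff₀ hb]; exact h)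
    refine ⟨n0, fun n hn K hK hKx => ?_⟩
    have h1 := hn0 n hn
    rw [div_pow, lt_div_iff₀ (by positivity)] at h1
    calc simplexInf n p
        ≤ ENNReal.ofReal (beta p ^ n * (((n:ℝ) + 1) ^ (n + 1) / n.factorial)) :=
          Pool.Agent.W570.NQ.infp_le hp
      _ < ENNReal.ofReal (bound p m ^ n) := by
          rw [ENNReal.ofReal_lt_ofReal_iff (by positivity)]
          linarith
      _ ≤ mahlerVolume p K := hlow n K hK p hp m hm hKx

end Pool.Agent.Results.MP_5f4cdd_gt.StrongComparison
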